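import Pool.Agent.Helper3.TP.St
import Pool.Agent.Helper80.TL.M_FAR1

/-! Project TP (MP_86d903), module FARG (helper72): far sets at logarithmic distance. -/

set_option autoImplicit false

open Finset
open MP86d903 (Valid Lit inside mem_inside pt flip Clause Ineq clauseIneq vsF ngF)
open Helper80.SR (Exp Closed Cl Sm)
open Helper3.TL
open Helper80.TL
open Helper3.TP

namespace Helper72.TP

theorem hFarG (hR : PRad) : PFarG := by
  intro ι V _ _ _ _ vs q Y A R U h3 hAR hRc hUA hSC hY hfar
  have hstep : ∀ (j : ℕ), j ≤ rad Y + 1 → ∀ v ∈ U, v ∉ near vs A j (R \ A) := by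
    intro j hj v hv hv'
    exact Finset.disjoint_left.mp hfar hv (near_mono_right hj _ hv')
  refine ⟨?_, ?_⟩
  · intro S hS hq hc
    by_contra hcon
    rw [not_lt] at hcon
    have hSY : S.card ≤ Y := hY S hq hc hcon
    set T : ℕ → Finset ι := fun j => S.filter (fun c => Disjoint (vs c) (near vs A j (R \ A))) with hT
    set Sj : ℕ → Finset ι := fun j => S.filter (fun c => ¬ Disjoint (vs c) (near vs A j (R \ A))) with hSj
    have hcard : ∀ j, (T j).card + (Sj j).card = S.card := fun j => Finset.card_filter_add_card_filter_not _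
    have hTm : ∀ j, T (j + 1) ⊆ T j := by
      intro j c hc'
      obtain ⟨h4, h5⟩ := mem_filter.mp hc'
      exact mem_filter.mpr ⟨h4, Disjoint.mono_right (near_mono_right (Nat.le_succ j) _) h5⟩
    have hin : ∀ j, ∀ c ∈ Sj j, ∀ v ∈ vs c, v ∉ A → v ∈ near vs A (j + 1) (R \ A) := by
      intro j c hc' v hv hvA
      obtain ⟨_, h4⟩ := mem_filter.mp hc'
      obtain ⟨x, hx, hxX⟩ := Finset.not_disjoint_iff.mp h4
      rw [near_succ]
      exact mem_nb.mpr (Or.inr ⟨⟨c, ⟨x, hx, hxX⟩, hv⟩, hvA⟩)
    have key : ∀ j, j ≤ rad Y → 24 * (T (j + 1)).card ≤ 23 * (T j).card := by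
      intro j hj
      have hD1 : (Sj j).biUnion vs \ R ⊆ S.biUnion vs \ (R ∪ U) := by
        intro v hv
        obtain ⟨hv1, hv2⟩ := mem_sdiff.mp hv
        obtain ⟨c, hc', hvc⟩ := mem_biUnion.mp hv1
        refine mem_sdiff.mpr ⟨mem_biUnion.mpr ⟨c, (mem_filter.mp hc').1, hvc⟩, fun h => ?_⟩
        rcases mem_union.mp h with h | h
        · exact hv2 h
        · exact hstep (j + 1) (by omega) v h (hin j c hc' v hvc (fun h' => hv2 (hAR h')))
      have hD2 : (T j).biUnion vs \ (A ∪ U) ⊆ S.biUnion vs \ (R ∪ U) := by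
        intro v hv
        obtain ⟨hv1, hv2⟩ := mem_sdiff.mp hv
        obtain ⟨c, hc', hvc⟩ := mem_biUnion.mp hv1
        obtain ⟨h4, h5⟩ := mem_filter.mp hc'
        refine mem_sdiff.mpr ⟨mem_biUnion.mpr ⟨c, h4, hvc⟩, fun h => ?_⟩
        rcases mem_union.mp h with h | h
        · refine Finset.disjoint_left.mp h5 hvc (near_mono_right (Nat.zero_le _) _ ?_)
          exact mem_sdiff.mpr ⟨h, fun h' => hv2 (mem_union_left _ h')⟩
        · exact hv2 (mem_union_right _ h)
      have hI : ((Sj j).biUnion vs \ R) ∩ ((T j).biUnion vs \ (A ∪ U)) ⊆ (T j \ T (j + 1)).biUnion vs := by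
        intro v hv
        obtain ⟨hv1, hv2⟩ := mem_inter.mp hv
        obtain ⟨hv3, hv4⟩ := mem_sdiff.mp hv1
        obtain ⟨c, hc', hvc⟩ := mem_biUnion.mp hv3
        obtain ⟨hv5, _⟩ := mem_sdiff.mp hv2
        obtain ⟨c2, hc2, hvc2⟩ := mem_biUnion.mp hv5
        refine mem_biUnion.mpr ⟨c2, mem_sdiff.mpr ⟨hc2, fun h => ?_⟩, hvc2⟩
        exact Finset.disjoint_left.mp (mem_filter.mp h).2 hvc2 (hin j c hc' v hvc (fun h' => hv4 (hAR h')))
      have hIc : (((Sj j).biUnion vs \ R) ∩ ((T j).biUnion vs \ (A ∪ U))).card ≤ (T j \ T (j + 1)).card * 3 :=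
        (card_le_card hI).trans (card_biUnion_le_card_mul _ _ _ fun c _ => (h3 c).le)
      have hsd : (T j \ T (j + 1)).card + (T (j + 1)).card = (T j).card := card_sdiff_add_card_eq_card (hTm j)
      have hun : (((Sj j).biUnion vs \ R) ∪ ((T j).biUnion vs \ (A ∪ U))).card ≤ (S.biUnion vs \ (R ∪ U)).card :=
        card_le_card (union_subset hD1 hD2)
      have hui := card_union_add_card_inter ((Sj j).biUnion vs \ R) ((T j).biUnion vs \ (A ∪ U))
      have hs1 : (Sj j).card ≤ ((Sj j).biUnion vs \ R).card := by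
        rcases (Sj j).eq_empty_or_nonempty with he | hn
        · rw [he, card_empty]
          exact Nat.zero_le _
        · refine (hRc _ hn ((card_le_card (filter_subset _ _)).trans hq) (fun c hc' h' => ?_)).le
          exact hc c (mem_filter.mp hc').1 (h'.trans subset_union_left)
      have hs2 : 9 * (T j).card ≤ 8 * ((T j).biUnion vs \ (A ∪ U)).card := by
        rcases (T j).eq_empty_or_nonempty with he | hn
        · rw [he, card_empty]
          exact Nat.zero_le _
        · refine hSC _ hn ((card_le_card (filter_subset _ _)).trans hq) (fun c hc' h' => ?_)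
          exact hc c (mem_filter.mp hc').1 (h'.trans (union_subset_union_left hAR))
      have hcj := hcard j
      omega
    have hind : ∀ j, j ≤ rad Y → 24 ^ j * (T j).card ≤ 23 ^ j * (T 0).card := by
      intro j
      induction j with
      | zero => intro _; simp
      | succ j ih =>
        intro hj
        have h4 := ih (by omega)
        have h5 := key j (by omega)
        calc 24 ^ (j + 1) * (T (j + 1)).card = 24 ^ j * (24 * (T (j + 1)).card) := by ring
          _ ≤ 24 ^ j * (23 * (T j).card) := Nat.mul_le_mul_left _ h5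
          _ = 23 * (24 ^ j * (T j).card) := by ring
          _ ≤ 23 * (23 ^ j * (T 0).card) := Nat.mul_le_mul_left _ h4
          _ = 23 ^ (j + 1) * (T 0).card := by ring
    have hT0 : (T 0).card ≤ Y := (card_le_card (filter_subset _ _)).trans hSY
    have hTL : (T (rad Y)).card = 0 := by
      by_contra hne
      have h4 := hind (rad Y) le_rfl
      have h5 := hR.1 Y _ hT0
      have h6 : 24 ^ rad Y * 1 ≤ 24 ^ rad Y * (T (rad Y)).card := Nat.mul_le_mul_left _ (Nat.one_le_iff_ne_zero.2 hne)
      omega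
    have hall : Sj (rad Y) = S := by
      refine Finset.filter_true_of_mem fun c hc' h => ?_
      have h4 : c ∈ T (rad Y) := mem_filter.mpr ⟨hc', h⟩
      rw [card_eq_zero.mp hTL] at h4
      exact Finset.notMem_empty _ h4
    have hsub : S.biUnion vs \ R ⊆ S.biUnion vs \ (R ∪ U) := by
      intro v hv
      obtain ⟨hv1, hv2⟩ := mem_sdiff.mp hv
      obtain ⟨c, hc', hvc⟩ := mem_biUnion.mp hv1
      refine mem_sdiff.mpr ⟨hv1, fun h => ?_⟩
      rcases mem_union.mp h with h | h
      · exact hv2 h
      · refine hstep (rad Y + 1) le_rfl v h (hin (rad Y) c ?_ v hvc (fun h' => hv2 (hAR h')))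
        rw [hall]
        exact hc'
    have h4 := hRc S hS hq (fun c hc' h' => hc c hc' (h'.trans subset_union_left))
    have h5 := card_le_card hsub
    omega
  · intro c hc
    by_contra hno
    push Not at hno
    obtain ⟨h1, h2⟩ := hno
    obtain ⟨u, hu, huR⟩ := Finset.not_subset.mp h1
    obtain ⟨r, hr, hrAU⟩ := Finset.not_subset.mp h2
    have huU : u ∈ U := by
      rcases mem_union.mp (hc hu) with h | h
      · exact absurd h huR
      · exact h
    have hrR : r ∈ R := by
      rcases mem_union.mp (hc hr) with h | h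
      · exact h
      · exact absurd (mem_union_right _ h) hrAU
    refine hstep 1 (by omega) u huU ?_
    have h3 : u ∈ nb vs A (R \ A) := by
      refine mem_nb.mpr (Or.inr ⟨⟨c, ⟨r, hr, ?_⟩, hu⟩, Finset.disjoint_left.mp hUA huU⟩)
      exact mem_sdiff.mpr ⟨hrR, fun h' => hrAU (mem_union_left _ h')⟩
    have h4 := near_succ (vs := vs) (A := A) 0 (R \ A)
    rw [near_zero] at h4
    rw [h4]
    exact h3

end Helper72.TP
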