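import Pool.Agent.Helper49.TP.StG

/-!
# Project TP, module FT2 (a weight on the triangles with constant vertex sums)
-/

set_option autoImplicit false

namespace Pool.Agent.Helper72.TP

open Finset Pool.Agent.Helper49.TP Pool.Agent.Helper93.IA

section

variable {n : ℕ}

/-- a function of three variables, invariant under a set of triples of permutations which is
transitive on the rows: the sums over the columns and symbols are equal -/
private lemma row_sum (y : Fin n → Fin n → Fin n → ℝ) (G : P3 n → Prop)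
    (hy : ∀ h, G h → Pr3 y h) (hT : ∀ r r', ∃ h, G h ∧ h.1 r = r') (τ : ℝ)
    (hs : ∀ s, ∑ r, ∑ c, y r c s = τ) (r : Fin n) : ∑ c, ∑ s, y r c s = τ := by
  have h1 : ∀ r', ∑ c, ∑ s, y r' c s = ∑ c, ∑ s, y r c s := by
    intro r'
    obtain ⟨h, hG, hr⟩ := hT r r'
    rw [← hr, ← Equiv.sum_comp h.2.1]
    refine Finset.sum_congr rfl fun c _ => ?_
    rw [← Equiv.sum_comp h.2.2]
    exact Finset.sum_congr rfl fun s _ => hy h hG r c s
  have h2 : ∑ r', ∑ c, ∑ s, y r' c s = ∑ s, ∑ r', ∑ c, y r' c s := by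
    rw [Finset.sum_comm' (s := univ) (t := fun _ => univ) (t' := univ) (s' := fun _ => univ)
      (by simp)]
    rw [Finset.sum_comm (s := univ) (t := univ) (f := fun s r' => ∑ c, y r' c s)]
    rw [Finset.sum_comm]
    refine Finset.sum_congr rfl fun r' _ => ?_
    exact Finset.sum_comm
  simp only [h1, hs, Finset.sum_const, Finset.card_univ, Fintype.card_fin, nsmul_eq_mul] at h2
  have hn : (n : ℝ) ≠ 0 := by
    have : 0 < n := Fin.pos r
    positivity
  exact mul_left_cancel₀ hn h2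

private lemma col_sum (y : Fin n → Fin n → Fin n → ℝ) (G : P3 n → Prop)
    (hy : ∀ h, G h → Pr3 y h) (hT : ∀ c c', ∃ h, G h ∧ h.2.1 c = c') (τ : ℝ)
    (hs : ∀ s, ∑ r, ∑ c, y r c s = τ) (c : Fin n) : ∑ r, ∑ s, y r c s = τ := by
  have h1 : ∀ c', ∑ r, ∑ s, y r c' s = ∑ r, ∑ s, y r c s := by
    intro c'
    obtain ⟨h, hG, hr⟩ := hT c c'
    rw [← hr, ← Equiv.sum_comp h.1]
    refine Finset.sum_congr rfl fun r _ => ?_
    rw [← Equiv.sum_comp h.2.2]
    exact Finset.sum_congr rfl fun s _ => hy h hG r c s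
  have h2 : ∑ c', ∑ r, ∑ s, y r c' s = ∑ s, ∑ r, ∑ c', y r c' s := by
    rw [Finset.sum_comm]
    rw [Finset.sum_comm (s := univ) (t := univ) (f := fun s r => ∑ c', y r c' s)]
    refine Finset.sum_congr rfl fun r' _ => ?_
    exact Finset.sum_comm
  simp only [h1, hs, Finset.sum_const, Finset.card_univ, Fintype.card_fin, nsmul_eq_mul] at h2
  have hn : (n : ℝ) ≠ 0 := by
    have : 0 < n := Fin.pos c
    positivity
  exact mul_left_cancel₀ hn h2

private lemma ind_le (A B C : Finset (Fin n × Fin n)) (r c s : Fin n) :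
    0 ≤ ind A B C r c s ∧ ind A B C r c s ≤ 1 := by
  unfold ind
  split_ifs <;> norm_num

private lemma N_lower (A B C : Finset (Fin n × Fin n))
    (hA : ∀ i, (m1 A univ i : ℝ) ≤ n / 4) (hB : ∀ i, (m2 B univ i : ℝ) ≤ n / 4)
    (hC : ∀ i, (m1 C univ i : ℝ) ≤ n / 4) (s : Fin n) :
    3 / 8 * (n : ℝ) ^ 2 ≤ ∑ r, ∑ c, ind A B C r c s := by
  have e1 : ∀ r, (if (s, r) ∉ C then 0 else (n : ℝ) / 2) ≤ ∑ c, ind A B C r c s := by
    intro r
    by_cases h : (s, r) ∈ C
    · rw [if_neg (not_not.2 h)]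
      have e2 : ∑ c, ((1 : ℝ) - (if (r, c) ∉ A then 1 else 0) - (if (c, s) ∉ B then 1 else 0)) ≤
          ∑ c, ind A B C r c s := by
        refine Finset.sum_le_sum fun c _ => ?_
        unfold ind
        by_cases h1 : (r, c) ∈ A <;> by_cases h2 : (c, s) ∈ B <;> simp [h, h1, h2]
      refine le_trans ?_ e2
      rw [Finset.sum_sub_distrib, Finset.sum_sub_distrib, Finset.sum_boole, Finset.sum_boole]
      simp only [Finset.sum_const, Finset.card_univ, Fintype.card_fin, nsmul_eq_mul, mul_one]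
      have h3 := hA r
      have h4 := hB s
      unfold m1 at h3
      unfold m2 at h4
      linarith
    · rw [if_pos h]
      exact Finset.sum_nonneg fun c _ => (ind_le A B C r c s).1
  refine le_trans ?_ (Finset.sum_le_sum fun r _ => e1 r)
  have e3 : ∀ r, (if (s, r) ∉ C then 0 else (n : ℝ) / 2) =
      (n : ℝ) / 2 - (n : ℝ) / 2 * (if (s, r) ∉ C then 1 else 0) := by
    intro r
    split_ifs <;> simp
  rw [Finset.sum_congr rfl fun r _ => e3 r, Finset.sum_sub_distrib, ← Finset.mul_sum,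
    Finset.sum_boole]
  simp only [Finset.sum_const, Finset.card_univ, Fintype.card_fin, nsmul_eq_mul]
  have h5 := hC s
  unfold m1 at h5
  have hn : (0 : ℝ) ≤ n := Nat.cast_nonneg n
  nlinarith

private lemma N_upper (A B C : Finset (Fin n × Fin n)) (s : Fin n) :
    ∑ r, ∑ c, ind A B C r c s ≤ (n : ℝ) ^ 2 := by
  calc ∑ r, ∑ c, ind A B C r c s ≤ ∑ _r : Fin n, ∑ _c : Fin n, (1 : ℝ) :=
        Finset.sum_le_sum fun r _ => Finset.sum_le_sum fun c _ => (ind_le A B C r c s).2
    _ = (n : ℝ) ^ 2 := by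
        simp only [Finset.sum_const, Finset.card_univ, Fintype.card_fin, nsmul_eq_mul, mul_one]
        ring

private lemma ind_inv (A B C : Finset (Fin n × Fin n)) (h : P3 n) (hh : AuG A B C h)
    (r c s : Fin n) : ind A B C (h.1 r) (h.2.1 c) (h.2.2 s) = ind A B C r c s := by
  unfold ind
  have h1 := hh.1 r c
  have h2 := hh.2.1 c s
  have h3 := hh.2.2 s r
  simp only [h1, h2, h3]

private lemma N_inv (A B C : Finset (Fin n × Fin n)) (h : P3 n) (hh : AuG A B C h)
    (s : Fin n) : ∑ r, ∑ c, ind A B C r c (h.2.2 s) = ∑ r, ∑ c, ind A B C r c s := by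
  rw [← Equiv.sum_comp h.1]
  refine Finset.sum_congr rfl fun r _ => ?_
  rw [← Equiv.sum_comp h.2.1]
  exact Finset.sum_congr rfl fun c _ => ind_inv A B C h hh r c s

end

theorem hFT2 : StFT2 := by
  intro δ n A B C hn hδ hm hT
  have hn' : (0 : ℝ) < n := by exact_mod_cast hn
  have hN1 : ∀ s, 3 / 8 * (n : ℝ) ^ 2 ≤ ∑ r, ∑ c, ind A B C r c s :=
    N_lower A B C (fun i => (hm i).1) (fun i => (hm i).2.2.2.1) (fun i => (hm i).2.2.2.2.1)
  have hN2 : ∀ s, ∑ r, ∑ c, ind A B C r c s ≤ (n : ℝ) ^ 2 := N_upper A B C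
  have hN0 : ∀ s, 0 < ∑ r, ∑ c, ind A B C r c s := fun s =>
    lt_of_lt_of_le (by positivity) (hN1 s)
  obtain ⟨y, hy⟩ : ∃ y : Fin n → Fin n → Fin n → ℝ, ∀ r c s,
      y r c s = 3 / 8 * δ * (n : ℝ) ^ 2 / (∑ r, ∑ c, ind A B C r c s) * ind A B C r c s :=
    ⟨_, fun r c s => rfl⟩
  have hinv : ∀ h, AuG A B C h → Pr3 y h := by
    intro h hh r c s
    rw [hy, hy, N_inv A B C h hh, ind_inv A B C h hh]
  have hsum : ∀ s, ∑ r, ∑ c, y r c s = 3 / 8 * δ * (n : ℝ) ^ 2 := by
    intro s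
    simp only [hy, ← Finset.mul_sum]
    exact div_mul_cancel₀ _ (hN0 s).ne'
  refine ⟨y, hinv, fun r c s ht => ?_, fun r c s ht => ?_,
    row_sum y (AuG A B C) hinv hT.1 _ hsum, col_sum y (AuG A B C) hinv hT.2 _ hsum, hsum⟩
  · have h1 : ind A B C r c s = 1 := by
      unfold ind
      exact if_pos ht
    rw [hy, h1, mul_one]
    constructor
    · rw [le_div_iff₀ (hN0 s)]
      have := hN2 s
      exact mul_le_mul_of_nonneg_left this (by positivity)
    · rw [div_le_iff₀ (hN0 s)]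
      have := mul_le_mul_of_nonneg_left (hN1 s) hδ.le
      linarith
  · have h1 : ind A B C r c s = 0 := by
      unfold ind
      exact if_neg ht
    rw [hy, h1, mul_zero]

end Pool.Agent.Helper72.TP
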